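import Mathlib

/-!
# Optimal curvature pinching of Heintze groups of Carnot type

Everything is stated on the Lie algebra: left-invariant Riemannian metrics on a connected Lie
group `G` correspond to inner products on its Lie algebra `𝔤`, and the Levi-Civita connection and
the curvature of such a metric on left-invariant fields are given by the Koszul formula.
-/

set_option autoImplicit false

namespace Pool.Agent.Results.MP_1a0a4b_gt.OptimalPinching

/-- A left-invariant Riemannian metric on a connected Lie group with Lie algebra `𝔤`,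
given by its value at the identity: an inner product on `𝔤`. -/
structure LeftInvariantMetric (𝔤 : Type*) [LieRing 𝔤] [LieAlgebra ℝ 𝔤] where
  /-- the inner product -/
  form : LinearMap.BilinForm ℝ 𝔤
  symm : ∀ x y, form x y = form y x
  pos : ∀ x, x ≠ 0 → 0 < form x x

section Curvature

variable {𝔤 : Type*} [LieRing 𝔤] [LieAlgebra ℝ 𝔤]

theorem LeftInvariantMetric.nondegenerate (g : LeftInvariantMetric 𝔤) :
    g.form.Nondegenerate := by
  constructor
  · intro x hx
    by_contra h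
    exact absurd (hx x) (g.pos x h).ne'
  · intro x hx
    by_contra h
    exact absurd (hx x) (g.pos x h).ne'

/-- The Koszul functional: `koszul g x y z = g (∇_x y, z)` for left-invariant fields. -/
noncomputable def koszul (g : LeftInvariantMetric 𝔤) (x y : 𝔤) : Module.Dual ℝ 𝔤 where
  toFun z := (g.form ⁅x, y⁆ z - g.form ⁅y, z⁆ x + g.form ⁅z, x⁆ y) / 2
  map_add' z w := by
    simp only [map_add, lie_add, add_lie, LinearMap.add_apply]
    ring
  map_smul' c z := by
    simp only [map_smul, lie_smul, smul_lie, LinearMap.smul_apply, smul_eq_mul, RingHom.id_apply]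
    ring

variable [Module.Finite ℝ 𝔤]

/-- The Levi-Civita connection of the left-invariant metric `g`, on left-invariant fields:
the unique vector `∇_x y` with `g (∇_x y, z) = koszul g x y z` for all `z`. -/
noncomputable def nabla (g : LeftInvariantMetric 𝔤) (x y : 𝔤) : 𝔤 :=
  (g.form.toDual g.nondegenerate).symm (koszul g x y)

/-- The curvature tensor `R(x,y)z = ∇_x ∇_y z - ∇_y ∇_x z - ∇_[x,y] z`. -/
noncomputable def curvature (g : LeftInvariantMetric 𝔤) (x y z : 𝔤) : 𝔤 :=
  nabla g x (nabla g y z) - nabla g y (nabla g x z) - nabla g ⁅x, y⁆ z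

/-- The sectional curvature of the plane spanned by `x` and `y`. -/
noncomputable def sectional (g : LeftInvariantMetric 𝔤) (x y : 𝔤) : ℝ :=
  g.form (curvature g x y y) x / (g.form x x * g.form y y - g.form x y ^ 2)

/-- All sectional curvatures of the left-invariant metric `g` lie in `[a, b]`. -/
def CurvatureIn (g : LeftInvariantMetric 𝔤) (a b : ℝ) : Prop :=
  ∀ x y : 𝔤, LinearIndependent ℝ ![x, y] → a ≤ sectional g x y ∧ sectional g x y ≤ b

theorem nabla_spec (g : LeftInvariantMetric 𝔤) (x y z : 𝔤) :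
    g.form (nabla g x y) z = (g.form ⁅x, y⁆ z - g.form ⁅y, z⁆ x + g.form ⁅z, x⁆ y) / 2 := by
  unfold nabla
  rw [LinearMap.BilinForm.apply_toDual_symm_apply]
  rfl

omit [Module.Finite ℝ 𝔤] in
theorem form_ext (g : LeftInvariantMetric 𝔤) {u v : 𝔤}
    (h : ∀ z, g.form u z = g.form v z) : u = v := by
  by_contra hne
  have h1 := g.pos (u - v) (sub_ne_zero.mpr hne)
  have h2 := h (u - v)
  simp only [map_sub, LinearMap.sub_apply] at h1 h2
  linarith

/-- sanity: `nabla` is torsion free. -/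
theorem nabla_torsion_free (g : LeftInvariantMetric 𝔤) (x y : 𝔤) :
    nabla g x y - nabla g y x = ⁅x, y⁆ := by
  apply form_ext g
  intro z
  rw [map_sub, LinearMap.sub_apply, nabla_spec, nabla_spec]
  have h1 : g.form ⁅y, x⁆ z = - g.form ⁅x, y⁆ z := by
    rw [← lie_skew x y, map_neg, LinearMap.neg_apply, neg_neg]
  have h2 : g.form ⁅x, z⁆ y = - g.form ⁅z, x⁆ y := by
    rw [← lie_skew z x, map_neg, LinearMap.neg_apply, neg_neg]
  have h3 : g.form ⁅z, y⁆ x = - g.form ⁅y, z⁆ x := by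
    rw [← lie_skew y z, map_neg, LinearMap.neg_apply, neg_neg]
  rw [h1, h2, h3]
  ring

/-- sanity: `nabla` is compatible with the metric. -/
theorem nabla_metric (g : LeftInvariantMetric 𝔤) (x y z : 𝔤) :
    g.form (nabla g x y) z + g.form y (nabla g x z) = 0 := by
  rw [g.symm y (nabla g x z), nabla_spec, nabla_spec]
  have h1 : g.form ⁅x, z⁆ y = - g.form ⁅z, x⁆ y := by
    rw [← lie_skew z x, map_neg, LinearMap.neg_apply, neg_neg]
  have h2 : g.form ⁅z, y⁆ x = - g.form ⁅y, z⁆ x := by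
    rw [← lie_skew y z, map_neg, LinearMap.neg_apply, neg_neg]
  have h3 : g.form ⁅y, x⁆ z = - g.form ⁅x, y⁆ z := by
    rw [← lie_skew x y, map_neg, LinearMap.neg_apply, neg_neg]
  rw [h1, h2, h3]
  ring

end Curvature

/-- The Lie algebra of a Heintze group of Carnot type whose derived subgroup has step `s`:
`𝔤 = 𝔫 ⊕ ℝ A`, where the Lie subalgebra `𝔫 = V 1 ⊕ ⋯ ⊕ V s` is a Carnot algebra of step `s`
(`[V 1, V i] = V (i+1)` for `1 ≤ i < s`, `[V 1, V s] = 0`, `V s ≠ 0`), and `A` acts on `V i` as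
multiplication by `i`.  (Nilpotency of `𝔫` follows from these conditions, since `ad A` is a
derivation with eigenvalue `i` on `V i`.) -/
structure HeintzeCarnot (𝔤 : Type*) [LieRing 𝔤] [LieAlgebra ℝ 𝔤] (s : ℕ) where
  /-- the subalgebra `𝔫` -/
  n : LieSubalgebra ℝ 𝔤
  /-- the layers; only `V 1, …, V s` matter -/
  V : ℕ → Submodule ℝ 𝔤
  /-- the element acting as the grading derivation -/
  A : 𝔤
  one_le_step : 1 ≤ s
  A_ne_zero : A ≠ 0
  isCompl : IsCompl n.toSubmodule (Submodule.span ℝ {A})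
  iSup_layers : (⨆ i : Fin s, V (i + 1)) = n.toSubmodule
  indep_layers : iSupIndep (fun i : Fin s => V (i + 1))
  bracket_layer : ∀ i, 1 ≤ i → i < s →
    Submodule.span ℝ {z : 𝔤 | ∃ x ∈ V 1, ∃ y ∈ V i, z = ⁅x, y⁆} = V (i + 1)
  bracket_top : ∀ x ∈ V 1, ∀ y ∈ V s, ⁅x, y⁆ = 0
  top_ne_bot : V s ≠ ⊥
  ad_A : ∀ i, 1 ≤ i → i ≤ s → ∀ x ∈ V i, ⁅A, x⁆ = (i : ℝ) • x


/-! ### Linear algebra: a symmetric operator whose eigenvalues have bounded square -/

theorem symm_eigen_bound_inner {E : Type*} [NormedAddCommGroup E] [InnerProductSpace ℝ E]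
    [FiniteDimensional ℝ E] (T : E →ₗ[ℝ] E) (hT : T.IsSymmetric) (c : ℝ)
    (hc : ∀ (μ : ℝ) (v : E), v ≠ 0 → T v = μ • v → μ ^ 2 ≤ c)
    (y : E) (hy : y ≠ 0) (l : ℝ) (h : inner ℝ (T y) y = l * inner ℝ y y) : l ^ 2 ≤ c := by
  classical
  set b := hT.eigenvectorBasis rfl with hb
  have hbv : ∀ i, T (b i) = (hT.eigenvalues rfl i : ℝ) • b i := fun i => by
    exact hT.apply_eigenvectorBasis rfl i
  have hev : ∀ i, (hT.eigenvalues rfl i : ℝ) ^ 2 ≤ c := fun i =>
    hc _ (b i) (b.orthonormal.ne_zero i) (hbv i)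
  have hc0 : 0 ≤ c := by
    by_contra hneg
    push Not at hneg
    have hempty : IsEmpty (Fin (Module.finrank ℝ E)) := by
      constructor
      intro i
      have := hev i
      nlinarith [sq_nonneg (hT.eigenvalues rfl i : ℝ)]
    have : Module.finrank ℝ E = 0 := by
      by_contra hne
      exact hempty.false ⟨0, Nat.pos_of_ne_zero hne⟩
    exact hy ((Module.finrank_zero_iff.mp this).elim y 0)
  have hTy : ‖T y‖ ^ 2 ≤ c * ‖y‖ ^ 2 := by
    have h1 : ‖T y‖ ^ 2 = ∑ i, ‖inner ℝ (b i) (T y)‖ ^ 2 := by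
      rw [b.sum_sq_norm_inner_right]
    have h2 : ‖y‖ ^ 2 = ∑ i, ‖inner ℝ (b i) y‖ ^ 2 := by
      rw [b.sum_sq_norm_inner_right]
    rw [h1, h2, Finset.mul_sum]
    apply Finset.sum_le_sum
    intro i _
    have h3 : inner ℝ (b i) (T y) = (hT.eigenvalues rfl i : ℝ) * inner ℝ (b i) y := by
      rw [← hT (b i) y, hbv i, inner_smul_left]
      simp
    rw [h3, norm_mul, mul_pow]
    have h4 : ‖(hT.eigenvalues rfl i : ℝ)‖ ^ 2 ≤ c := by
      rw [Real.norm_eq_abs, sq_abs]
      exact hev i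
    exact mul_le_mul_of_nonneg_right h4 (sq_nonneg _)
  have hyy : 0 < ‖y‖ := norm_pos_iff.mpr hy
  have h5 : |l| * ‖y‖ ^ 2 ≤ ‖T y‖ * ‖y‖ := by
    have := abs_real_inner_le_norm (T y) y
    rw [h, real_inner_self_eq_norm_sq, abs_mul, abs_of_nonneg (sq_nonneg ‖y‖)] at this
    exact this
  have h6 : |l| * ‖y‖ ≤ ‖T y‖ := by
    have : (|l| * ‖y‖) * ‖y‖ ≤ ‖T y‖ * ‖y‖ := by nlinarith
    exact le_of_mul_le_mul_right this hyy
  have h7 : (|l| * ‖y‖) ^ 2 ≤ c * ‖y‖ ^ 2 :=
    (pow_le_pow_left₀ (mul_nonneg (abs_nonneg _) hyy.le) h6 2).trans hTy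
  rw [mul_pow, sq_abs] at h7
  exact le_of_mul_le_mul_right h7 (by positivity)

theorem symm_eigen_bound {E : Type*} [AddCommGroup E] [Module ℝ E] [FiniteDimensional ℝ E]
    (B : E →ₗ[ℝ] E →ₗ[ℝ] ℝ) (hsymm : ∀ x y, B x y = B y x) (hpos : ∀ x, x ≠ 0 → 0 < B x x)
    (T : E →ₗ[ℝ] E) (hT : ∀ x y, B (T x) y = B x (T y)) (c : ℝ)
    (hc : ∀ (μ : ℝ) (v : E), v ≠ 0 → T v = μ • v → μ ^ 2 ≤ c)
    (y : E) (hy : y ≠ 0) (l : ℝ) (h : B (T y) y = l * B y y) : l ^ 2 ≤ c := by
  let core : InnerProductSpace.Core ℝ E :=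
    { inner := fun x y => B x y
      conj_inner_symm := fun x y => by simpa using hsymm y x
      re_inner_nonneg := fun x => by
        by_cases hx : x = 0
        · simp [hx]
        · simpa using (hpos x hx).le
      add_left := fun x y z => by simp
      smul_left := fun x y r => by simp
      definite := fun x hx => by
        by_contra hne
        exact absurd hx (hpos x hne).ne' }
  let _ : NormedAddCommGroup E := core.toNormedAddCommGroup
  let _ : InnerProductSpace ℝ E := InnerProductSpace.ofCore core.toCore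
  exact symm_eigen_bound_inner T (fun x y => hT x y) c hc y hy l h


/-! ### Curvature of planes containing the unit normal of the codimension one ideal -/

section Normal

variable {𝔤 : Type*} [LieRing 𝔤] [LieAlgebra ℝ 𝔤] [Module.Finite ℝ 𝔤]

theorem nabla_swap (g : LeftInvariantMetric 𝔤) (x y : 𝔤) :
    nabla g x y = nabla g y x + ⁅x, y⁆ := by
  rw [← nabla_torsion_free g x y]
  abel

theorem form_nabla_left (g : LeftInvariantMetric 𝔤) (x y z : 𝔤) :
    g.form (nabla g x y) z = - g.form y (nabla g x z) := by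
  linarith [nabla_metric g x y z]

variable (g : LeftInvariantMetric 𝔤) (H : 𝔤) (hH : ∀ x y : 𝔤, g.form ⁅x, y⁆ H = 0)

include hH

/-- `H` is orthogonal to the derived algebra, so `∇_H H = 0`. -/
theorem nabla_H_H : nabla g H H = 0 := by
  apply form_ext g
  intro z
  rw [nabla_spec, hH H z, hH z H, lie_self]
  simp

/-- `x ↦ ∇_x H` is symmetric. -/
theorem nabla_H_symm (x y : 𝔤) :
    g.form (nabla g x H) y = g.form x (nabla g y H) := by
  rw [g.symm x, nabla_spec, nabla_spec]
  have h1 : g.form ⁅y, x⁆ H = 0 := hH y x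
  have h2 : g.form ⁅x, y⁆ H = 0 := hH x y
  have h3 : g.form ⁅H, x⁆ y = - g.form ⁅x, H⁆ y := by
    rw [← lie_skew x H, map_neg, LinearMap.neg_apply, neg_neg]
  have h4 : g.form ⁅H, y⁆ x = - g.form ⁅y, H⁆ x := by
    rw [← lie_skew y H, map_neg, LinearMap.neg_apply, neg_neg]
  rw [h1, h2, h3, h4]
  ring

/-- the curvature numerator of the plane spanned by `H` and `x`. -/
theorem curvature_H (x : 𝔤) :
    g.form (curvature g H x x) H =
      g.form (nabla g H x) (nabla g x H) + g.form x (nabla g ⁅H, x⁆ H) := by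
  unfold curvature
  rw [map_sub, map_sub, LinearMap.sub_apply, LinearMap.sub_apply,
    form_nabla_left g H (nabla g x x) H, nabla_H_H g H hH, map_zero,
    form_nabla_left g x (nabla g H x) H, form_nabla_left g ⁅H, x⁆ x H]
  ring

/-- For `x` with `[H, x] = l x` the curvature numerator is `|∇_x H|² - 2 l² |x|²`. -/
theorem curvature_H_eigen (x : 𝔤) (l : ℝ) (hx : ⁅H, x⁆ = l • x) :
    g.form (nabla g x H) x = - l * g.form x x ∧
    g.form (curvature g H x x) H =
      g.form (nabla g x H) (nabla g x H) - 2 * l ^ 2 * g.form x x := by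
  have h0 : g.form (nabla g x H) x = - l * g.form x x := by
    have h1 : nabla g x H = nabla g H x - l • x := by
      rw [nabla_swap g H x, hx]
      abel
    have h2 : g.form (nabla g H x) x = 0 := by
      have := nabla_metric g H x x
      rw [g.symm x] at this
      linarith
    rw [h1, map_sub, LinearMap.sub_apply, h2, map_smul, LinearMap.smul_apply, smul_eq_mul]
    ring
  refine ⟨h0, ?_⟩
  rw [curvature_H g H hH x]
  have h1 : nabla g H x = nabla g x H + l • x := by
    rw [nabla_swap g H x, hx]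
  have h2 : g.form x (nabla g ⁅H, x⁆ H) = l * g.form (nabla g x H) x := by
    rw [← nabla_H_symm g H hH x ⁅H, x⁆, hx, map_smul, smul_eq_mul]
  rw [h2, h1, map_add, LinearMap.add_apply, map_smul, LinearMap.smul_apply, smul_eq_mul,
    g.symm x (nabla g x H), h0]
  ring

/-- A curvature bound from below controls the eigenvalues of `x ↦ -∇_x H`. -/
theorem eigen_sq_le (hHH : g.form H H = 1) (a b : ℝ) (ha : a ≤ 0) (hK : CurvatureIn g a b)
    (μ : ℝ) (z : 𝔤) (hz : z ≠ 0) (hμ : nabla g z H = μ • z) : μ ^ 2 ≤ -a := by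
  by_cases hμ0 : μ = 0
  · subst hμ0
    simpa using ha
  have hHz : g.form H z = 0 := by
    have h1 := nabla_H_symm g H hH z H
    rw [nabla_H_H g H hH, map_zero, hμ, map_smul, LinearMap.smul_apply, smul_eq_mul] at h1
    rw [g.symm H z]
    exact (mul_eq_zero.mp h1).resolve_left hμ0
  have hzz := g.pos z hz
  have hlin : LinearIndependent ℝ ![H, z] := by
    rw [LinearIndependent.pair_iff]
    intro c d hcd
    have h1 : g.form H (c • H + d • z) = 0 := by rw [hcd, map_zero]
    have h2 : g.form z (c • H + d • z) = 0 := by rw [hcd, map_zero]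
    rw [map_add, map_smul, map_smul, hHH, hHz, smul_eq_mul, smul_eq_mul] at h1
    rw [map_add, map_smul, map_smul, g.symm z H, hHz, smul_eq_mul, smul_eq_mul] at h2
    constructor
    · linarith
    · have : d * g.form z z = 0 := by linarith
      exact (mul_eq_zero.mp this).resolve_right hzz.ne'
  have h := (hK H z hlin).1
  have hnum : g.form (curvature g H z z) H = - μ ^ 2 * g.form z z := by
    rw [curvature_H g H hH z, ← nabla_H_symm g H hH z ⁅H, z⁆, hμ]
    have h1 : g.form (nabla g H z) z = 0 := by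
      have := nabla_metric g H z z
      rw [g.symm z] at this
      linarith
    have h2 : ⁅H, z⁆ = nabla g H z - μ • z := by
      rw [← hμ, nabla_torsion_free]
    rw [h2]
    simp only [map_smul, LinearMap.smul_apply, smul_eq_mul, map_sub]
    rw [g.symm z (nabla g H z), h1]
    ring
  unfold sectional at h
  rw [hnum, hHH, hHz, le_div_iff₀ (by nlinarith)] at h
  have h3 : a * g.form z z ≤ - μ ^ 2 * g.form z z := by linarith
  have h4 := le_of_mul_le_mul_right h3 hzz
  linarith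

/-- The two eigenvalue estimates for `ad H`. -/
theorem ad_eigen_bounds (hHH : g.form H H = 1) (a b : ℝ) (ha : a ≤ 0)
    (hK : CurvatureIn g a b) (l : ℝ) (hl : l ≠ 0) (x : 𝔤) (hx : x ≠ 0) (hxl : ⁅H, x⁆ = l • x) :
    - b ≤ l ^ 2 ∧ l ^ 2 ≤ - a := by
  obtain ⟨h0, hcurv⟩ := curvature_H_eigen g H hH x l hxl
  have hxx := g.pos x hx
  constructor
  · have hHx : g.form H x = 0 := by
      have h1 := hH H x
      rw [hxl, map_smul, LinearMap.smul_apply, smul_eq_mul] at h1
      rw [g.symm H x]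
      exact (mul_eq_zero.mp h1).resolve_left hl
    have hlin : LinearIndependent ℝ ![H, x] := by
      rw [LinearIndependent.pair_iff]
      intro c d hcd
      have h1 : g.form H (c • H + d • x) = 0 := by rw [hcd, map_zero]
      have h2 : g.form x (c • H + d • x) = 0 := by rw [hcd, map_zero]
      rw [map_add, map_smul, map_smul, hHH, hHx, smul_eq_mul, smul_eq_mul] at h1
      rw [map_add, map_smul, map_smul, g.symm x H, hHx, smul_eq_mul, smul_eq_mul] at h2
      constructor
      · linarith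
      · have : d * g.form x x = 0 := by linarith
        exact (mul_eq_zero.mp this).resolve_right hxx.ne'
    have h := (hK H x hlin).2
    unfold sectional at h
    rw [hcurv, hHH, hHx, div_le_iff₀ (by nlinarith)] at h
    -- Cauchy-Schwarz: `g (∇_x H, x)² ≤ |∇_x H|² |x|²`
    have hcs : l ^ 2 * g.form x x ≤ g.form (nabla g x H) (nabla g x H) := by
      have h1 : 0 ≤ g.form (nabla g x H + l • x) (nabla g x H + l • x) := by
        by_cases hz : nabla g x H + l • x = 0
        · rw [hz]; simp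
        · exact (g.pos _ hz).le
      simp only [map_add, map_smul, LinearMap.add_apply, LinearMap.smul_apply,
        smul_eq_mul] at h1
      rw [g.symm x (nabla g x H), h0] at h1
      nlinarith
    have h5 : (- b) * g.form x x ≤ l ^ 2 * g.form x x := by nlinarith
    exact le_of_mul_le_mul_right h5 hxx
  · -- the symmetric operator `T x = ∇_x H`
    let T : 𝔤 →ₗ[ℝ] 𝔤 :=
      { toFun := fun x => nabla g x H
        map_add' := fun x y => by
          apply form_ext g
          intro z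
          rw [map_add, LinearMap.add_apply, nabla_spec, nabla_spec, nabla_spec]
          simp only [add_lie, lie_add, map_add, LinearMap.add_apply]
          ring
        map_smul' := fun c x => by
          apply form_ext g
          intro z
          rw [map_smul, LinearMap.smul_apply, nabla_spec, nabla_spec]
          simp only [smul_lie, lie_smul, map_smul, LinearMap.smul_apply, smul_eq_mul,
            RingHom.id_apply]
          ring }
    have key := symm_eigen_bound g.form g.symm g.pos T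
      (fun u v => nabla_H_symm g H hH u v) (- a)
      (fun μ v hv hTv => eigen_sq_le g H hH hHH a b ha hK μ v hv hTv)
      x hx (- l) (by
        change g.form (nabla g x H) x = _
        rw [h0])
    simpa using key

end Normal


/-! ### The structure of the Lie algebra -/

section Structure

variable {𝔤 : Type*} [LieRing 𝔤] [LieAlgebra ℝ 𝔤] {s : ℕ} (G : HeintzeCarnot 𝔤 s)

include G

theorem layer_le (i : ℕ) (h1 : 1 ≤ i) (h2 : i ≤ s) : G.V i ≤ G.n.toSubmodule := by
  rw [← G.iSup_layers]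
  have := le_iSup (fun i : Fin s => G.V (i + 1)) ⟨i - 1, by omega⟩
  simpa [Nat.sub_add_cancel h1] using this

/-- induction principle for elements of `𝔫`. -/
theorem n_induction {C : 𝔤 → Prop} (x : 𝔤) (hx : x ∈ G.n.toSubmodule)
    (hmem : ∀ i, 1 ≤ i → i ≤ s → ∀ v ∈ G.V i, C v) (h0 : C 0)
    (hadd : ∀ u v, C u → C v → C (u + v)) : C x := by
  rw [← G.iSup_layers] at hx
  refine Submodule.iSup_induction _ (motive := C) hx ?_ h0 hadd
  intro i v hv
  exact hmem (i + 1) (by omega) (by omega) v hv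

theorem ad_A_mem (x : 𝔤) (hx : x ∈ G.n.toSubmodule) : ⁅G.A, x⁆ ∈ G.n.toSubmodule := by
  refine n_induction G (C := fun x => ⁅G.A, x⁆ ∈ G.n.toSubmodule) x hx ?_ (by simp) ?_
  · intro i h1 h2 v hv
    rw [G.ad_A i h1 h2 v hv]
    exact Submodule.smul_mem _ _ (layer_le G i h1 h2 hv)
  · intro u v hu hv
    rw [lie_add]
    exact Submodule.add_mem _ hu hv

theorem exists_decomp (x : 𝔤) : ∃ y ∈ G.n.toSubmodule, ∃ c : ℝ, x = y + c • G.A := by
  have h : x ∈ G.n.toSubmodule ⊔ Submodule.span ℝ {G.A} := by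
    rw [G.isCompl.sup_eq_top]; trivial
  obtain ⟨y, hy, z, hz, rfl⟩ := Submodule.mem_sup.mp h
  obtain ⟨c, rfl⟩ := Submodule.mem_span_singleton.mp hz
  exact ⟨y, hy, c, rfl⟩

theorem lie_mem_n (x y : 𝔤) : ⁅x, y⁆ ∈ G.n.toSubmodule := by
  obtain ⟨u, hu, c, rfl⟩ := exists_decomp G x
  obtain ⟨v, hv, d, rfl⟩ := exists_decomp G y
  have h1 : ⁅u, v⁆ ∈ G.n.toSubmodule := G.n.lie_mem hu hv
  have h2 : ⁅G.A, v⁆ ∈ G.n.toSubmodule := ad_A_mem G v hv
  have h3 : ⁅u, G.A⁆ ∈ G.n.toSubmodule := by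
    rw [← lie_skew]
    exact Submodule.neg_mem _ (ad_A_mem G u hu)
  simp only [add_lie, lie_add, smul_lie, lie_smul, lie_self, smul_zero, add_zero]
  exact Submodule.add_mem _ (Submodule.add_mem _ h1 (Submodule.smul_mem _ _ h2))
    (Submodule.smul_mem _ _ h3)

/-- the sum of the layers `V 2, …, V s`. -/
def upper : Submodule ℝ 𝔤 := ⨆ i : Fin s, ⨆ _ : (i : ℕ) ≠ 0, G.V (i + 1)

theorem layer_le_upper (i : ℕ) (h1 : 2 ≤ i) (h2 : i ≤ s) : G.V i ≤ upper G := by
  have := le_iSup₂ (f := fun (i : Fin s) (_ : (i : ℕ) ≠ 0) => G.V (i + 1))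
    ⟨i - 1, by omega⟩ (by simp only [ne_eq]; omega)
  simp only [Nat.sub_add_cancel (show 1 ≤ i by omega)] at this
  exact this

theorem upper_le : upper G ≤ G.n.toSubmodule := by
  refine iSup₂_le ?_
  intro i _
  exact layer_le G _ (by omega) (by omega)

theorem upper_induction {C : 𝔤 → Prop} (x : 𝔤) (hx : x ∈ upper G)
    (hmem : ∀ i, 2 ≤ i → i ≤ s → ∀ v ∈ G.V i, C v) (h0 : C 0)
    (hadd : ∀ u v, C u → C v → C (u + v)) : C x := by
  unfold upper at hx
  refine Submodule.iSup_induction _ (motive := C) hx ?_ h0 hadd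
  intro i v hv
  by_cases hi : (i : ℕ) ≠ 0
  · rw [iSup_pos hi] at hv
    exact hmem (i + 1) (by omega) (by omega) v hv
  · rw [iSup_neg hi, Submodule.mem_bot] at hv
    rw [hv]; exact h0

theorem disjoint_one_upper : Disjoint (G.V 1) (upper G) := by
  have h := G.indep_layers ⟨0, G.one_le_step⟩
  simp only [zero_add] at h
  refine h.mono_right ?_
  refine iSup₂_le ?_
  intro i hi
  refine le_iSup₂_of_le i ?_ le_rfl
  intro h0
  exact hi (by rw [h0])

theorem ad_A_upper (x : 𝔤) (hx : x ∈ upper G) : ⁅G.A, x⁆ ∈ upper G := by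
  refine upper_induction G (C := fun x => ⁅G.A, x⁆ ∈ upper G) x hx ?_ (by simp) ?_
  · intro i h1 h2 v hv
    rw [G.ad_A i (by omega) h2 v hv]
    exact Submodule.smul_mem _ _ (layer_le_upper G i h1 h2 hv)
  · intro u v hu hv
    rw [lie_add]
    exact Submodule.add_mem _ hu hv

theorem exists_decomp_one (x : 𝔤) (hx : x ∈ G.n.toSubmodule) :
    ∃ u ∈ G.V 1, ∃ v ∈ upper G, x = u + v := by
  refine n_induction G (C := fun x => ∃ u ∈ G.V 1, ∃ v ∈ upper G, x = u + v) x hx ?_
    ⟨0, Submodule.zero_mem _, 0, Submodule.zero_mem _, by simp⟩ ?_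
  · intro i h1 h2 v hv
    rcases Nat.lt_or_ge i 2 with hi | hi
    · obtain rfl : i = 1 := by omega
      exact ⟨v, hv, 0, Submodule.zero_mem _, by simp⟩
    · exact ⟨0, Submodule.zero_mem _, v, layer_le_upper G i hi h2 hv, by simp⟩
  · rintro _ _ ⟨u, hu, v, hv, rfl⟩ ⟨u', hu', v', hv', rfl⟩
    exact ⟨u + u', Submodule.add_mem _ hu hu', v + v', Submodule.add_mem _ hv hv', by abel⟩

/-- An eigenvector of `ad A` in `𝔫` with eigenvalue different from `1` lies in `V 2 ⊕ ⋯ ⊕ V s`. -/
theorem mem_upper_of_eigen (x : 𝔤) (hx : x ∈ G.n.toSubmodule) (c : ℝ) (hc : c ≠ 1)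
    (h : ⁅G.A, x⁆ = c • x) : x ∈ upper G := by
  obtain ⟨u, hu, v, hv, rfl⟩ := exists_decomp_one G x hx
  have h1 : (c - 1) • u = ⁅G.A, v⁆ - c • v := by
    rw [lie_add, G.ad_A 1 le_rfl G.one_le_step u hu, smul_add] at h
    have h2 : ⁅G.A, v⁆ = c • u + c • v - (1 : ℕ) • u := by
      rw [← h]
      simp
    rw [h2, sub_smul]
    simp
    abel
  have h2 : (c - 1) • u ∈ upper G := by
    rw [h1]
    exact Submodule.sub_mem _ (ad_A_upper G v hv) (Submodule.smul_mem _ _ hv)
  have h3 : u ∈ upper G := (Submodule.smul_mem_iff _ (sub_ne_zero.mpr hc)).mp h2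
  have h4 : u = 0 := (Submodule.disjoint_def.mp (disjoint_one_upper G)) u hu h3
  rw [h4, zero_add]
  exact hv

/-- the eigenvalues of `ad A` on `𝔫` are `1, …, s` only. -/
theorem eq_zero_of_eigen (x : 𝔤) (hx : x ∈ G.n.toSubmodule) (c : ℝ) (hc : (s : ℝ) < c)
    (h : ⁅G.A, x⁆ = c • x) : x = 0 := by
  classical
  have hind := (LieAlgebra.ad ℝ 𝔤 G.A).eigenspaces_iSupIndep c
  have h1 : x ∈ (LieAlgebra.ad ℝ 𝔤 G.A).eigenspace c := by
    rw [Module.End.mem_eigenspace_iff]
    simpa using h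
  have h2 : x ∈ ⨆ j, ⨆ (_ : j ≠ c), (LieAlgebra.ad ℝ 𝔤 G.A).eigenspace j := by
    refine n_induction G (C := fun x => x ∈ ⨆ j, ⨆ (_ : j ≠ c),
      (LieAlgebra.ad ℝ 𝔤 G.A).eigenspace j) x hx ?_ (Submodule.zero_mem _)
      (fun _ _ => Submodule.add_mem _)
    intro i hi1 hi2 v hv
    have hle := le_iSup₂ (f := fun (j : ℝ) (_ : j ≠ c) => (LieAlgebra.ad ℝ 𝔤 G.A).eigenspace j)
      (i : ℝ) (by
        have : (i : ℝ) ≤ s := by exact_mod_cast hi2
        exact (this.trans_lt hc).ne)
    apply hle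
    rw [Module.End.mem_eigenspace_iff]
    simpa using G.ad_A i hi1 hi2 v hv
  exact (Submodule.disjoint_def.mp hind) x h1 h2

/-- brackets of layers -/
theorem ad_A_lie (i j : ℕ) (hi : 1 ≤ i) (hi' : i ≤ s) (hj : 1 ≤ j) (hj' : j ≤ s)
    (x y : 𝔤) (hx : x ∈ G.V i) (hy : y ∈ G.V j) :
    ⁅G.A, ⁅x, y⁆⁆ = ((i : ℝ) + j) • ⁅x, y⁆ := by
  rw [leibniz_lie, G.ad_A i hi hi' x hx, G.ad_A j hj hj' y hy, smul_lie, lie_smul, add_smul]

theorem lie_top (x y : 𝔤) (hx : x ∈ G.n.toSubmodule) (hy : y ∈ G.V s) : ⁅x, y⁆ = 0 := by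
  refine n_induction G (C := fun x => ⁅x, y⁆ = 0) x hx ?_ (by simp) ?_
  · intro i h1 h2 v hv
    refine eq_zero_of_eigen G _ (lie_mem_n G v y) ((i : ℝ) + s) ?_
      (ad_A_lie G i s h1 h2 G.one_le_step le_rfl v y hv hy)
    have : (1 : ℝ) ≤ i := by exact_mod_cast h1
    linarith
  · intro u v hu hv
    rw [add_lie, hu, hv, add_zero]

theorem lie_upper (x y : 𝔤) (hx : x ∈ G.n.toSubmodule) (hy : y ∈ G.n.toSubmodule) :
    ⁅x, y⁆ ∈ upper G := by
  refine n_induction G (C := fun x => ⁅x, y⁆ ∈ upper G) x hx ?_ (by simp) ?_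
  · intro i hi1 hi2 v hv
    refine n_induction G (C := fun y => ⁅v, y⁆ ∈ upper G) y hy ?_ (by simp) ?_
    · intro j hj1 hj2 w hw
      refine mem_upper_of_eigen G _ (lie_mem_n G v w) ((i : ℝ) + j) ?_
        (ad_A_lie G i j hi1 hi2 hj1 hj2 v w hv hw)
      have h1 : (1 : ℝ) ≤ i := by exact_mod_cast hi1
      have h2 : (1 : ℝ) ≤ j := by exact_mod_cast hj1
      intro h
      linarith
    · intro u w hu hw
      rw [lie_add]
      exact Submodule.add_mem _ hu hw
  · intro u v hu hv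
    rw [add_lie]
    exact Submodule.add_mem _ hu hv

theorem layer_one_ne_bot : G.V 1 ≠ ⊥ := by
  intro h
  have hall : ∀ i, 1 ≤ i → i ≤ s → G.V i = ⊥ := by
    intro i hi
    induction i, hi using Nat.le_induction with
    | base => intro _; exact h
    | succ k hk ih =>
      intro hks
      rw [← G.bracket_layer k hk (by omega)]
      rw [Submodule.span_eq_bot]
      rintro z ⟨x, hx, y, hy, rfl⟩
      rw [h, Submodule.mem_bot] at hx
      rw [hx, zero_lie]
  exact G.top_ne_bot (hall s G.one_le_step le_rfl)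

theorem A_not_mem : G.A ∉ G.n.toSubmodule := by
  intro h
  have := (Submodule.disjoint_def.mp G.isCompl.disjoint) G.A h
    (Submodule.mem_span_singleton_self _)
  exact G.A_ne_zero this

variable [Module.Finite ℝ 𝔤]

/-- `ad H` has an eigenvector in `𝔫` with eigenvalue `α` when `H ∈ α A + 𝔫`. -/
theorem exists_low_eigenvector (X₀ : 𝔤) (hX₀ : X₀ ∈ G.n.toSubmodule) (α : ℝ) :
    ∃ x : 𝔤, x ≠ 0 ∧ ⁅X₀ + α • G.A, x⁆ = α • x := by
  classical
  have hmem : ∀ x ∈ G.n.toSubmodule, ⁅X₀ + α • G.A, x⁆ - α • x ∈ upper G := by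
    intro x hx
    obtain ⟨u, hu, v, hv, rfl⟩ := exists_decomp_one G x hx
    have h1 : ⁅X₀ + α • G.A, u + v⁆ - α • (u + v) =
        ⁅X₀, u + v⁆ + (α • ⁅G.A, v⁆ - α • v) := by
      rw [add_lie, smul_lie, lie_add G.A, G.ad_A 1 le_rfl G.one_le_step u hu]
      simp only [Nat.cast_one, one_smul, smul_add]
      abel
    rw [h1]
    exact Submodule.add_mem _ (lie_upper G _ _ hX₀ hx)
      (Submodule.sub_mem _ (Submodule.smul_mem _ _ (ad_A_upper G v hv))
        (Submodule.smul_mem _ _ hv))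
  let T : G.n.toSubmodule →ₗ[ℝ] G.n.toSubmodule :=
    LinearMap.restrict (LieAlgebra.ad ℝ 𝔤 (X₀ + α • G.A) - α • LinearMap.id)
      (fun x hx => upper_le G (by simpa using hmem x hx))
  have hT : ∀ x, (T x : 𝔤) = ⁅X₀ + α • G.A, (x : 𝔤)⁆ - α • (x : 𝔤) := fun x => by
    simp [T, LinearMap.restrict_apply]
  have hns : ¬ Function.Surjective T := by
    intro hsurj
    obtain ⟨u, hu, hu0⟩ := Submodule.exists_mem_ne_zero_of_ne_bot (layer_one_ne_bot G)
    obtain ⟨x, hx⟩ := hsurj ⟨u, layer_le G 1 le_rfl G.one_le_step hu⟩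
    have h1 : (T x : 𝔤) = u := by rw [hx]
    have h2 : u ∈ upper G := by
      rw [← h1, hT]
      exact hmem x x.2
    exact hu0 ((Submodule.disjoint_def.mp (disjoint_one_upper G)) u hu h2)
  have hni : ¬ Function.Injective T := fun h => hns (LinearMap.injective_iff_surjective.mp h)
  rw [← LinearMap.ker_eq_bot] at hni
  obtain ⟨x, hx, hx0⟩ := Submodule.exists_mem_ne_zero_of_ne_bot hni
  refine ⟨x, fun h => hx0 (Subtype.ext h), ?_⟩
  have h1 := hT x
  rw [LinearMap.mem_ker.mp hx] at h1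
  simp only [ZeroMemClass.coe_zero] at h1
  exact (sub_eq_zero.mp h1.symm)

end Structure

/-- **Optimal pinching of Heintze groups of Carnot type.**  For every Heintze group of Carnot type
(with `[G,G]` of step `s`) and every left-invariant metric whose sectional curvatures lie in
`[a, b]` with `a ≤ b < 0`, the pinching satisfies `b / a ≤ 1 / s ^ 2`. -/
theorem result {𝔤 : Type*} [LieRing 𝔤] [LieAlgebra ℝ 𝔤] [Module.Finite ℝ 𝔤] (s : ℕ)
    (G : HeintzeCarnot 𝔤 s) (g : LeftInvariantMetric 𝔤) (a b : ℝ) (hab : a ≤ b) (hb : b < 0)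
    (hK : CurvatureIn g a b) : b / a ≤ 1 / (s : ℝ) ^ 2 := by
  have ha : a < 0 := lt_of_le_of_lt hab hb
  -- the unit normal `H`
  have hlt : G.n.toSubmodule < ⊤ := by
    rw [lt_top_iff_ne_top]
    intro h
    exact A_not_mem G (h ▸ Submodule.mem_top)
  obtain ⟨f, hf0, hf⟩ := Submodule.exists_le_ker_of_lt_top _ hlt
  obtain ⟨H₀, hH₀⟩ : ∃ H₀ : 𝔤, ∀ x, g.form H₀ x = f x :=
    ⟨(g.form.toDual g.nondegenerate).symm f, fun x => by
      rw [LinearMap.BilinForm.apply_toDual_symm_apply]⟩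
  have hH₀0 : H₀ ≠ 0 := by
    rintro rfl
    apply hf0
    ext x
    rw [← hH₀ x]
    simp
  have hpos := g.pos H₀ hH₀0
  set r : ℝ := Real.sqrt (g.form H₀ H₀) with hr
  have hr0 : 0 < r := Real.sqrt_pos.mpr hpos
  set H : 𝔤 := r⁻¹ • H₀ with hHdef
  have hHH : g.form H H = 1 := by
    rw [hHdef]
    simp only [map_smul, LinearMap.smul_apply, smul_eq_mul]
    have : g.form H₀ H₀ = r ^ 2 := by rw [hr, Real.sq_sqrt hpos.le]
    rw [this]
    field_simp
  have hHn : ∀ x ∈ G.n.toSubmodule, g.form x H = 0 := by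
    intro x hx
    rw [g.symm, hHdef]
    simp only [map_smul, LinearMap.smul_apply, smul_eq_mul]
    rw [hH₀ x, LinearMap.mem_ker.mp (hf hx), mul_zero]
  have hH : ∀ x y : 𝔤, g.form ⁅x, y⁆ H = 0 := fun x y => hHn _ (lie_mem_n G x y)
  -- decompose `H = X₀ + α A`
  obtain ⟨X₀, hX₀, α, hdec⟩ := exists_decomp G H
  have hα : α ≠ 0 := by
    rintro rfl
    have : H ∈ G.n.toSubmodule := by
      rw [hdec]
      simpa using hX₀
    have h1 := hHn H this
    rw [hHH] at h1
    exact one_ne_zero h1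
  -- the eigenvector for the eigenvalue `α`
  obtain ⟨x, hx0, hx⟩ := exists_low_eigenvector G X₀ hX₀ α
  rw [← hdec] at hx
  have hlow := (ad_eigen_bounds g H hH hHH a b ha.le hK α hα x hx0 hx).1
  -- the eigenvector for the eigenvalue `α s`
  obtain ⟨y, hy, hy0⟩ := Submodule.exists_mem_ne_zero_of_ne_bot G.top_ne_bot
  have hs0 : (s : ℝ) ≠ 0 := by
    have := G.one_le_step
    positivity
  have hyl : ⁅H, y⁆ = (α * s) • y := by
    rw [hdec, add_lie, lie_top G X₀ y hX₀ hy, zero_add, smul_lie,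
      G.ad_A s G.one_le_step le_rfl y hy, smul_smul]
  have hhigh := (ad_eigen_bounds g H hH hHH a b ha.le hK (α * s) (mul_ne_zero hα hs0) y hy0 hyl).2
  have hs2 : (0 : ℝ) < (s : ℝ) ^ 2 := by positivity
  rw [div_le_iff_of_neg ha, div_mul_eq_mul_div, one_mul, div_le_iff₀ hs2]
  nlinarith

end Pool.Agent.Results.MP_1a0a4b_gt.OptimalPinching
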